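import Pool.Agent.P.MP_de3acd_gt.Main

/-!
A Hamiltonian diffeomorphism of a closed aspherical six-manifold with rational symplectic class
whose iterates have Hofer-small nondegenerate perturbations with exponentially fewer fixed points
than the topological entropy predicts.
-/

namespace Pool.Agent.Old.MP_de3acd_gt.StableCount

open Pool.Agent.P.MP_de3acd_gt

theorem result : ∃ (Γ : Subgroup (Equiv.Perm E)) (hΓ : Good Γ) (H : ℝ → E → ℝ) (φ : E → E)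
    (f : Q Γ → Q Γ) (h : ℝ), Gen Γ H φ ∧ (∀ z, f (pr Γ z) = pr Γ (φ z)) ∧ 0 ≤ h ∧
      (h : EReal) < htop hΓ f ∧ ∀ ε : ℝ, 0 < ε → ∃ C : ℝ, ∀ k : ℕ, 1 ≤ k →
        ∃ (F G : ℝ → E → ℝ) (ψ : E → E), Gen Γ F φ^[k] ∧ Gen Γ G ψ ∧
          (∀ s z, |F s z - G s z| ≤ ε) ∧ Nondeg Γ ψ ∧ (fixSet Γ ψ).Finite ∧
          ((fixSet Γ ψ).ncard : ℝ) ≤ C * Real.exp (h * k) :=
  main

end Pool.Agent.Old.MP_de3acd_gt.StableCount
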